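import Pool.Agent.H44.CDS.Main

/-!
# Minimal connected dominating sets can be enumerated in output quasi-polynomial time

A Turing machine that, given a graph `G`, a list of minimal connected dominating sets of `G` and a
number `k`, lists `k` further ones (or all remaining ones, if there are fewer than `k`), in time
quasi-polynomial in the total length of the input and the output.

*The algorithm.*  Let `ℱ` be the list of the known solutions.  We look for a connected dominating
set containing no member of `ℱ`; some vertices `T` are forced in, some vertices `Z` are forced out,
and `U` is the set of the free vertices.  Let `l` be the number of binary digits of the number of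
vertices plus that of the number of known solutions.

* If some set `S` of at most `2 (6 l + 14) ^ 2` free vertices is such that `T ∪ (U \ S)` is not a
  connected dominating set, then `S` meets all members of `ℱ` (avoiding `Z`), so some vertex of `S`
  is in a large fraction of them, and we branch on it.
* Otherwise, if all members of `ℱ` (avoiding `Z`) have at least `l + 2` free vertices, a new
  solution exists by the sampling lemma: choose `3 l + 7` random sets of free vertices one after
  the other; the first one makes `T` dominating, and each other one is expected to reduce the
  number of components by a constant factor, because each component has many disjoint connectors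
  consisting of at most two vertices.
* Otherwise some known solution `F` has few free vertices; since `F ∪ T` is connected and
  dominating, some vertex of `F` dominates a large fraction of the vertices not dominated by `T`,
  or, if `T` is dominating, is adjacent to a large fraction of the components of `T`; we branch on
  it.  If `T` is dominating and has few components, few free vertices suffice to connect it, and
  these are found by exhaustive search.
-/

set_option autoImplicit false

namespace Pool.Agent.Results.MP_6e88d0_lc.QuasiPolynomialTime

open Pool.Agent.H44.CDS Pool.Agent.NPC Pool.Agent.NPC.R671

/-- There are a Turing machine `M` (in the sense of Mathlib) and a constant `C` such that, given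
(the adjacency matrix of) a graph `G` on `n` vertices, a list `ℱ` of minimal connected dominating
sets of `G` and a number `k` in binary, `M` outputs a list `R` of `min (k, m)` distinct minimal
connected dominating sets of `G` that are not in `ℱ`, where `m` is the number of all of those, in
at most `2 ^ (C (log₂ N + 1) ^ 4)` steps, where `N` is the total length of the input and the
output. -/
theorem result : ∃ (M : Turing.TM2ComputableAux Bool Bool) (C : ℕ),
    ∀ (n : ℕ) (G : SimpleGraph (Fin n)) (ℱ : List (Finset (Fin n))) (k : ℕ),
      (∀ D ∈ ℱ, IsMinCDS G D) → ∃ R : List (Finset (Fin n)), R.Nodup ∧
      (∀ D ∈ R, IsMinCDS G D ∧ D ∉ ℱ) ∧ R.length ≤ k ∧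
      (R.length < k → ∀ D, IsMinCDS G D → D ∈ R ∨ D ∈ ℱ) ∧
      Nonempty (Turing.TM2OutputsInTime M.tm
        ((bits (adjMatrix G, ℱ.map vec, k)).map M.inputAlphabet.invFun)
        (some ((bits (R.map vec)).map M.outputAlphabet.invFun))
        (2 ^ (C * (Nat.log 2 ((bits (adjMatrix G, ℱ.map vec, k)).length +
          (bits (R.map vec)).length) + 1) ^ 4))) :=
  enum_time

end Pool.Agent.Results.MP_6e88d0_lc.QuasiPolynomialTime
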